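import Mathlib

set_option autoImplicit false

namespace Pool.Agent.Results.MP_66fdf3_co.CommutatorEven

/-- `L` is a latin square with rows, columns and symbols indexed by `G`. -/
def IsLatin {G : Type*} (L : G → G → G) : Prop :=
  (∀ r, Function.Bijective (L r)) ∧ ∀ c, Function.Bijective fun r => L r c

/-- The cells `{r₁, r₂} × {c₁, c₂}` form a `2 × 2` latin subsquare of `L` on the symbols `u, v`
(the diagonal carries one of the symbols, the antidiagonal the other one). -/
def IsIntercalate {G : Type*} (L : G → G → G) (r₁ r₂ c₁ c₂ : G) : Prop :=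
  r₁ ≠ r₂ ∧ c₁ ≠ c₂ ∧ L r₁ c₁ = L r₂ c₂ ∧ L r₁ c₂ = L r₂ c₁

/-- Two latin squares of order `n` are near-orthogonal: there are rows `r₁ ≠ r₂` and columns
`c₁ ≠ c₂` on which both have a `2 × 2` subsquare, with the same two symbols, and the
superposition has exactly `n² - 2` distinct ordered pairs. -/
def NearOrthogonal {G : Type*} (L L' : G → G → G) : Prop :=
  (∃ r₁ r₂ c₁ c₂ : G, IsIntercalate L r₁ r₂ c₁ c₂ ∧ IsIntercalate L' r₁ r₂ c₁ c₂ ∧
    ({L r₁ c₁, L r₁ c₂} : Set G) = {L' r₁ c₁, L' r₁ c₂}) ∧
  (Set.range fun p : G × G => (L p.1 p.2, L' p.1 p.2)).ncard = Nat.card G ^ 2 - 2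

/-- The Cayley table of `G` has a near-orthogonal mate. -/
def HasNearOrthogonalMate (G : Type*) [Group G] : Prop :=
  ∃ L' : G → G → G, IsLatin L' ∧ NearOrthogonal (fun a b : G => a * b) L'

/-- If the Cayley table of a finite group `G` of order greater than two has a near-orthogonal
mate, then the commutator subgroup of `G` has even order. -/
theorem result (G : Type*) [Group G] [Finite G] (hG : 2 < Nat.card G)
    (h : HasNearOrthogonalMate G) : Even (Nat.card (commutator G)) := by
  classical
  have := Fintype.ofFinite G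
  obtain ⟨L', ⟨hrow, hcol⟩, ⟨r₁, r₂, c₁, c₂, ⟨hr, hc, hu, hv⟩, ⟨-, -, hu', hv'⟩, -⟩, hcard⟩ := h
  simp only at hu hv
  set f : G × G → G × G := fun p => (p.1 * p.2, L' p.1 p.2) with hf
  set u := r₁ * c₁ with hudef
  set v := r₁ * c₂ with hvdef
  set u' := L' r₁ c₁ with hu'def
  set v' := L' r₁ c₂ with hv'def
  have huv : u ≠ v := fun e => hc (mul_left_cancel e)
  have huv' : u' ≠ v' := fun e => hc ((hrow r₁).1 e)
  -- the two missing pairs
  have hM : ((Set.range f)ᶜ).ncard = 2 := by
    rw [Set.ncard_compl, hcard, Nat.card_prod]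
    have : 2 ≤ Nat.card G ^ 2 := by nlinarith
    rw [← pow_two]
    omega
  -- columns of a symbol of the mate
  choose τ hτ using fun (s r : G) => (hrow r).2 s
  have hτu : ∀ s r c, L' r c = s → τ s r = c := fun s r c h => (hrow r).1 ((hτ s r).trans h.symm)
  have hτinj : ∀ s, Function.Injective (τ s) := by
    intro s r r' e
    have h1 := hτ s r
    have h2 := hτ s r'
    rw [e] at h1
    exact (hcol (τ s r')).1 (h1.trans h2.symm)
  -- a non-surjective symbol class gives a missing pair
  have hmiss : ∀ s, ¬ Function.Surjective (fun r => r * τ s r) → ∃ z, (z, s) ∈ (Set.range f)ᶜ := by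
    intro s hs
    by_contra hcon
    push Not at hcon
    apply hs
    intro z
    have := hcon z
    rw [Set.notMem_compl_iff] at this
    obtain ⟨⟨r, c⟩, hrc⟩ := this
    simp only [hf, Prod.mk.injEq] at hrc
    exact ⟨r, by simp only; rw [hτu s r c hrc.2, hrc.1]⟩
  have hmiss2 : ∀ z, ¬ Function.Surjective (fun r => L' r (r⁻¹ * z)) →
      ∃ s, (z, s) ∈ (Set.range f)ᶜ := by
    intro z hz
    by_contra hcon
    push Not at hcon
    apply hz
    intro s
    have := hcon s
    rw [Set.notMem_compl_iff] at this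
    obtain ⟨⟨r, c⟩, hrc⟩ := this
    simp only [hf, Prod.mk.injEq] at hrc
    refine ⟨r, ?_⟩
    simp only
    rw [← hrc.1, inv_mul_cancel_left, hrc.2]
  have hnsurj : ∀ (g : G → G) (a b : G), a ≠ b → g a = g b → ¬ Function.Surjective g := by
    intro g a b hab he hs
    exact hab (Finite.injective_iff_surjective.2 hs he)
  have t1 : τ u' r₁ = c₁ := hτu _ _ _ rfl
  have t2 : τ u' r₂ = c₂ := hτu _ _ _ hu'.symm
  have t3 : τ v' r₁ = c₂ := hτu _ _ _ rfl
  have t4 : τ v' r₂ = c₁ := hτu _ _ _ hv'.symm
  obtain ⟨z1, hz1⟩ := hmiss u' (hnsurj _ r₁ r₂ hr (by simp only [t1, t2]; exact hu))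
  obtain ⟨z2, hz2⟩ := hmiss v' (hnsurj _ r₁ r₂ hr (by simp only [t3, t4]; exact hv))
  have e1 : r₁⁻¹ * u = c₁ := by rw [hudef]; group
  have e2 : r₂⁻¹ * u = c₂ := by rw [hu]; group
  have e3 : r₁⁻¹ * v = c₂ := by rw [hvdef]; group
  have e4 : r₂⁻¹ * v = c₁ := by rw [hv]; group
  obtain ⟨x1, hx1⟩ := hmiss2 u (hnsurj _ r₁ r₂ hr (by simp only [e1, e2]; exact hu'))
  obtain ⟨x2, hx2⟩ := hmiss2 v (hnsurj _ r₁ r₂ hr (by simp only [e3, e4]; exact hv'))
  -- the complement of the range is `{(z1, u'), (z2, v')}`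
  have hMeq : ∀ p ∈ (Set.range f)ᶜ, p = (z1, u') ∨ p = (z2, v') := by
    intro p hp
    by_contra hcon
    push Not at hcon
    have hsub : ({p, (z1, u'), (z2, v')} : Set (G × G)) ⊆ (Set.range f)ᶜ := by
      intro w hw
      simp only [Set.mem_insert_iff, Set.mem_singleton_iff] at hw
      rcases hw with rfl | rfl | rfl
      · exact hp
      · exact hz1
      · exact hz2
    have hle := Set.ncard_le_ncard hsub (Set.toFinite _)
    have h3 : ({p, (z1, u'), (z2, v')} : Set (G × G)).ncard = 3 := by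
      rw [Set.ncard_eq_three]
      refine ⟨p, (z1, u'), (z2, v'), hcon.1, hcon.2, ?_, rfl⟩
      intro e
      exact huv' (congrArg Prod.snd e)
    omega
  have huu' : (u, u') ∉ (Set.range f)ᶜ := by
    rw [Set.notMem_compl_iff]
    exact ⟨(r₁, c₁), rfl⟩
  have hz1v : z1 = v := by
    rcases hMeq _ hx2 with h | h
    · exact (congrArg Prod.fst h).symm
    · -- then the pair for `u` must be `(z1, u')`
      rcases hMeq _ hx1 with h' | h'
      · exfalso
        have a1 : u = z1 := congrArg Prod.fst h'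
        apply huu'
        rw [a1]
        exact hz1
      · exfalso
        have a1 : u = z2 := congrArg Prod.fst h'
        have a2 : v = z2 := congrArg Prod.fst h
        exact huv (a1.trans a2.symm)
  -- work in the abelianization
  let φ : G →* Abelianization G := Abelianization.of
  set P : Abelianization G := ∏ g : G, φ g with hP
  have hτprod : ∀ s, ∏ r : G, φ (τ s r) = P := by
    intro s
    have hb : Function.Bijective (τ s) := Finite.injective_iff_bijective.1 (hτinj s)
    exact Function.Bijective.prod_comp hb (fun g => φ g)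
  have hFprod : ∀ s, ∏ r : G, φ (r * τ s r) = P * P := by
    intro s
    simp only [map_mul]
    rw [Finset.prod_mul_distrib, hτprod s]
  -- a third symbol
  obtain ⟨s, hs1, hs2⟩ : ∃ s : G, s ≠ u' ∧ s ≠ v' := by
    by_contra hcon
    push Not at hcon
    have hsub : (Finset.univ : Finset G) ⊆ {u', v'} := by
      intro x _
      by_cases hx : x = u'
      · simp [hx]
      · simp [hcon x hx]
    have := Finset.card_le_card hsub
    have h2 := Finset.card_le_two (a := u') (b := v')
    rw [Finset.card_univ, ← Nat.card_eq_fintype_card] at this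
    omega
  have hP1 : P = 1 := by
    have hsurj : Function.Surjective (fun r => r * τ s r) := by
      by_contra hcon
      obtain ⟨z, hz⟩ := hmiss s hcon
      rcases hMeq _ hz with h | h
      · exact hs1 (congrArg Prod.snd h)
      · exact hs2 (congrArg Prod.snd h)
    have hb : Function.Bijective (fun r => r * τ s r) :=
      ⟨Finite.injective_iff_surjective.2 hsurj, hsurj⟩
    have h1 : ∏ r : G, φ (r * τ s r) = P :=
      Function.Bijective.prod_comp hb (fun g => φ g)
    rw [hFprod s] at h1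
    exact mul_eq_left.1 h1
  -- the symbol class of `u'`
  set F : G → G := fun r => r * τ u' r with hF
  have hFu : F r₁ = u ∧ F r₂ = u := ⟨by simp only [hF, t1, hudef], by simp only [hF, t2]; exact hu.symm⟩
  have hvr : ∀ r, F r ≠ v := by
    intro r hr'
    have : (v, u') ∈ (Set.range f)ᶜ := hz1v ▸ hz1
    apply this
    exact ⟨(r, τ u' r), by simp only [hf]; rw [hτ]; exact congrArg (fun z => (z, u')) hr'⟩
  have hother : ∀ z, z ≠ v → ∃ r, F r = z := by
    intro z hz
    by_contra hcon
    push Not at hcon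
    have hzc : (z, u') ∈ (Set.range f)ᶜ := by
      rintro ⟨⟨r, c⟩, hrc⟩
      simp only [hf, Prod.mk.injEq] at hrc
      apply hcon r
      simp only [hF]
      rw [hτu u' r c hrc.2, hrc.1]
    rcases hMeq _ hzc with h | h
    · exact hz ((congrArg Prod.fst h).trans hz1v)
    · exact huv' (congrArg Prod.snd h)
  have himg : (Finset.univ.erase r₁).image F = Finset.univ.erase v := by
    ext z
    simp only [Finset.mem_image, Finset.mem_erase, Finset.mem_univ, and_true]
    constructor
    · rintro ⟨r, -, rfl⟩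
      exact hvr r
    · intro hz
      obtain ⟨r, rfl⟩ := hother z hz
      by_cases hrr : r = r₁
      · exact ⟨r₂, hr.symm, by rw [hrr, hFu.1, hFu.2]⟩
      · exact ⟨r, hrr, rfl⟩
  have hinjOn : Set.InjOn F (Finset.univ.erase r₁ : Finset G) := by
    apply Finset.injOn_of_card_image_eq
    rw [himg, Finset.card_erase_of_mem (Finset.mem_univ _),
      Finset.card_erase_of_mem (Finset.mem_univ _)]
  have g1 : ∏ r ∈ Finset.univ.erase r₁, φ (F r) = ∏ z ∈ Finset.univ.erase v, φ z := by
    rw [← himg, Finset.prod_image hinjOn]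
  have g2 : φ u * ∏ r ∈ Finset.univ.erase r₁, φ (F r) = 1 := by
    have := Finset.mul_prod_erase Finset.univ (fun r => φ (F r)) (Finset.mem_univ r₁)
    rw [hFu.1] at this
    rw [this]
    have h2 := hFprod u'
    rw [hP1, mul_one] at h2
    exact h2
  have g3 : φ v * ∏ z ∈ Finset.univ.erase v, φ z = 1 := by
    have := Finset.mul_prod_erase Finset.univ (fun z => φ z) (Finset.mem_univ v)
    rw [this]
    exact hP1
  rw [g1, ← g3] at g2
  have hφ : φ u = φ v := mul_right_cancel g2
  -- the involution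
  set t : G := u * v⁻¹ with ht
  have htc : t ∈ commutator G := by
    rw [← Abelianization.ker_of, MonoidHom.mem_ker]
    change φ t = 1
    rw [ht, map_mul, map_inv, hφ, mul_inv_cancel]
  have ht1 : t ≠ 1 := by
    intro e
    exact huv (mul_inv_eq_one.1 e)
  have htt : t * t = 1 := by
    -- `c₁ * c₂⁻¹ = c₂ * c₁⁻¹`
    have a1 : c₁ * c₂⁻¹ = r₁⁻¹ * r₂ := by
      rw [eq_inv_mul_iff_mul_eq, ← mul_assoc, ← hudef, hu, mul_inv_cancel_right]
    have a2 : c₂ * c₁⁻¹ = r₁⁻¹ * r₂ := by
      rw [eq_inv_mul_iff_mul_eq, ← mul_assoc, ← hvdef, hv, mul_inv_cancel_right]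
    have a3 : (c₁ * c₂⁻¹) * (c₁ * c₂⁻¹) = 1 := by
      nth_rewrite 2 [a1]
      rw [← a2]
      group
    rw [ht, hudef, hvdef]
    calc r₁ * c₁ * (r₁ * c₂)⁻¹ * (r₁ * c₁ * (r₁ * c₂)⁻¹)
        = r₁ * ((c₁ * c₂⁻¹) * (c₁ * c₂⁻¹)) * r₁⁻¹ := by group
      _ = 1 := by rw [a3]; group
  have hord : orderOf (⟨t, htc⟩ : commutator G) = 2 := by
    apply orderOf_eq_prime
    · rw [pow_two]
      exact Subtype.ext htt
    · intro e
      exact ht1 (congrArg Subtype.val e)
  have := orderOf_dvd_natCard (⟨t, htc⟩ : commutator G)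
  rw [hord] at this
  exact even_iff_two_dvd.2 this

end Pool.Agent.Results.MP_66fdf3_co.CommutatorEven
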